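import Mathlib

set_option autoImplicit false

namespace Pool.Agent.Results.MP_b7336c_co.Power

open Matrix List

/-- The binary representation, leading digit first. -/
def bin (i : ℕ) : List ℕ := (Nat.digits 2 i).reverse

/-- Number of (overlapping) occurrences of `w` as a block of `u`. -/
def occ (w u : List ℕ) : ℕ := u.tails.countP (w <+: ·)

/-- The matrix `(e_{2;(j)_2}(i))_{1 ≤ i, j ≤ N}`; index `i : Fin N` stands for `i + 1`. -/
def M (N : ℕ) : Matrix (Fin N) (Fin N) ℤ := fun i j => occ (bin (j + 1)) (bin (i + 1))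

lemma inj {a b : ℕ} (h : bin a = bin b) : a = b :=
  Nat.digits_inj_iff.1 (reverse_injective h)

lemma inf {w u : List ℕ} (h : occ w u ≠ 0) : w <:+: u := by
  obtain ⟨t, a, b⟩ := countP_pos_iff.1 (Nat.pos_of_ne_zero h)
  exact (of_decide_eq_true b).isInfix.trans ((mem_tails _ _).1 a).isInfix

lemma cons (w : List ℕ) (a : ℕ) (u : List ℕ) :
    occ w (a :: u) = occ w u + if w <+: a :: u then 1 else 0 := by
  simp [occ, countP_cons]

lemma ne (a : ℕ) : bin (a + 1) ≠ [] := by simp [bin]

lemma self (u : List ℕ) (h : u ≠ []) : occ u u = 1 := by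
  obtain ⟨a, u, rfl⟩ := exists_cons_of_ne_nil h
  rw [cons, if_pos prefix_rfl, show occ (a :: u) u = 0 from by_contra fun k => by
    have := (inf k).length_le; simp at this]

lemma pw (k : ℕ) : bin (2 ^ k) = 1 :: replicate k 0 := by
  have := Nat.digits_base_pow_mul (b := 2) (k := k) (m := 1) (by simp) (by simp)
  rw [mul_one] at this
  rw [bin, this]; simp

lemma f2 (k a : ℕ) (h : (bin (a + 1)).length = k + 1) :
    occ (bin (a + 1)) (bin (2 ^ (k + 1))) = if a + 1 = 2 ^ k then 1 else 0 := by
  have p : bin (2 ^ k) <+: 1 :: replicate (k + 1) 0 := by rw [pw, replicate_succ']; simp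
  rw [pw, cons, show occ (bin (a + 1)) (replicate (k + 1) 0) = 0 from by_contra fun c =>
    Nat.getLast_digit_ne_zero 2 (m := a + 1) (by simp) <| eq_of_mem_replicate <|
      (inf c).subset (mem_reverse.2 (getLast_mem _)), zero_add]
  refine if_congr ⟨fun q => inj ?_, fun q => q ▸ p⟩ rfl rfl
  exact (prefix_of_prefix_length_le q p (by simp [pw, h])).eq_of_length (by simp [pw, h])

lemma len {a k : ℕ} : (bin a).length ≤ k ↔ a < 2 ^ k := by
  simp [bin, Nat.digits_length_le_iff]

theorem result (n : ℕ) (_ : 1 ≤ n) (i j : Fin (2 ^ 2 ^ n)) :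
    (M (2 ^ 2 ^ n) ^ 2 ^ n) i j ≡
      (if i = j then 1 else 0) + (if i.1 + 1 = 2 ^ 2 ^ n ∧ j.1 + 1 = 1 then 1 else 0) [ZMOD 2] := by
  refine (ZMod.intCast_eq_intCast_iff _ _ 2).1 ?_
  haveI : Nonempty (Fin (2 ^ 2 ^ n)) := ⟨i⟩
  haveI : Fact (Nat.Prime 2) := ⟨Nat.prime_two⟩
  let A := (Int.castRingHom (ZMod 2)).mapMatrix (M (2 ^ 2 ^ n)) - 1
  have e : ((M (2 ^ 2 ^ n) ^ 2 ^ n) i j : ZMod 2) = (1 + A ^ 2 ^ n : Matrix _ _ _) i j := by
    have := add_pow_char_pow_of_commute 2 n (Commute.one_left A)
    rw [one_pow] at this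
    rw [← this, add_sub_cancel, ← map_pow]; rfl
  have a : ∀ i j, A i j = (occ (bin (j + 1)) (bin (i + 1)) : ZMod 2) - if i = j then 1 else 0 :=
    fun i j => by simp [A, M, one_apply]
  clear_value A
  generalize 2 ^ n = L at *
  have f1 : ∀ i j, A i j ≠ 0 → (bin (j + 1)).length < (bin (i + 1)).length := fun i j h => by
    rw [a] at h
    split_ifs at h with c
    · simp [c, self _ (ne _)] at h
    · have := inf (w := bin (j + 1)) (u := bin (i + 1)) fun q => by simp [q] at h
      exact this.length_le.lt_of_ne fun q => c (Fin.ext (by have := inj (this.eq_of_length q); omega))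
  have c1 : ∀ t i j, (A ^ t) i j ≠ 0 → (bin (j + 1)).length + t ≤ (bin (i + 1)).length := fun t => by
    induction t with
    | zero => intro i j h; rw [pow_zero] at h; rw [by_contra fun c : ¬i = j => h (one_apply_ne c)]; simp
    | succ t ih =>
      intro i j h
      rw [pow_succ', mul_apply] at h
      obtain ⟨k, -, h⟩ := Finset.exists_ne_zero_of_sum_ne_zero h
      have := f1 _ _ (left_ne_zero_of_mul h); have := ih _ _ (right_ne_zero_of_mul h); omega
  have c2 : ∀ t (i j : Fin (2 ^ L)), i.1 + 1 = 2 ^ t → j.1 + 1 = 1 → (A ^ t) i j = 1 := fun t => by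
    induction t with
    | zero => intro i j h k; rw [pow_zero, show i = j from Fin.ext (by omega), one_apply_eq]
    | succ t ih =>
      intro i j h k
      have := i.2
      have := Nat.two_pow_pos t
      have q : 2 ^ t - 1 + 1 = 2 ^ t := by omega
      rw [pow_succ', mul_apply, Finset.sum_eq_single ⟨2 ^ t - 1, by omega⟩ (fun b _ hb => ?_) (by simp),
        ih _ _ q k, a, h, f2 t _ (by simp [q, pw]), if_pos q, if_neg fun c => by
          have := congrArg Fin.val c; simp at this; omega]
      · simp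
      by_contra c
      have l1 := f1 _ _ (left_ne_zero_of_mul c)
      have l2 := c1 _ _ _ (right_ne_zero_of_mul c)
      have l3 := length_pos_iff.2 (ne j)
      have n : i ≠ b := fun e => by simp [e] at l1
      rw [h, pw] at l1
      rw [a, h, f2 t _ (by simp at l1; omega), if_neg n, if_neg fun e => hb (Fin.ext (by simp; omega))] at c
      simp at c
  rw [e, Matrix.add_apply, one_apply]
  push_cast
  congr 1
  split_ifs with h
  · exact c2 _ _ _ h.1 (by omega)
  by_contra c
  have := c1 _ _ _ c
  have l3 := length_pos_iff.2 (ne j)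
  have := i.2
  have := (len (a := i + 1) (k := L)).not.1 (by omega)
  have := (len (a := i + 1) (k := L + 1)).2 (by omega)
  have := (len (a := j + 1) (k := 1)).1 (by omega)
  omega

end Pool.Agent.Results.MP_b7336c_co.Power
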